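import Pool.Agent.Y924.UF.Stm
import Pool.Agent.Y924.EL.Sem

/-! # Project UF: meaning of the templates (parts SEMA and SEMB; by helper153)

Adapted from `Pool.Agent.Y924.EL.Sem2`, `Sem4`, `Sem5` (helper924). -/

set_option autoImplicit false

namespace Pool.Agent.Y153.UF

open Function
open Pool.Agent.Y924.EL Pool.Agent.Y924.UF

section

variable {K : Type} [CommRing K] {O : Set K} {Q : (ℕ → K) → Prop} {h : Fin 5 → Fm} {M : Lev K}
  {v : ℕ → K} {k0 : ℕ}

omit [CommRing K] in
lemma upd_ne {v : ℕ → K} {i j : ℕ} {x : K} (hij : i ≠ j) : update v j x i = v i :=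
  update_of_ne hij _ _

lemma sat_cD (hQ : Keeps Q) (hR : RepQ O Q h M) (hv : Q v) {a : ℕ} (ha : 10 ≤ a) :
    Sat O ((Tp.cD a).inst h) v ↔ M.D (v a) := by
  rw [Tp.cD, sat_call1 O h v _ (by omega), sat_hole]
  rw [(hR _ (by repeat (first | exact hv | refine hQ _ _ _ (by norm_num) ?_))).1, update_self]

lemma sat_cL (hQ : Keeps Q) (hR : RepQ O Q h M) (hv : Q v) {a b : ℕ} (ha : 10 ≤ a) (hb : 10 ≤ b) :
    Sat O ((Tp.cL a b).inst h) v ↔ M.L (v a) (v b) := by
  rw [Tp.cL, sat_call2 O h v _ (by omega) (by omega) (by omega), sat_hole]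
  rw [(hR _ (by repeat (first | exact hv | refine hQ _ _ _ (by norm_num) ?_))).2.1, update_self,
    upd_ne (by norm_num), update_self]

lemma sat_cE (hQ : Keeps Q) (hR : RepQ O Q h M) (hv : Q v) {a b c : ℕ} (ha : 10 ≤ a) (hb : 10 ≤ b)
    (hc : 10 ≤ c) : Sat O ((Tp.cE a b c).inst h) v ↔ M.E (v a) (v b) (v c) := by
  rw [Tp.cE, sat_call3 O h v _ (by omega) (by omega) (by omega) (by omega) (by omega) (by omega),
    sat_hole]
  rw [(hR _ (by repeat (first | exact hv | refine hQ _ _ _ (by norm_num) ?_))).2.2,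
    update_self, upd_ne (by norm_num), upd_ne (by norm_num), update_self, upd_ne (by norm_num),
    update_self]

lemma sat_cE1 (hQ : Keeps Q) (hR : RepQ O Q h M) (hv : Q v) {a b : ℕ} (ha : 10 ≤ a) (hb : 10 ≤ b)
    (ha' : a ≠ 29) (hb' : b ≠ 29) :
    Sat O ((Tp.cE1 a b).inst h) v ↔ M.E (v a) (v b) 1 := by
  simp only [Tp.cE1, sat_ex, sat_and, sat_isO, update_self]
  constructor
  · rintro ⟨x, rfl, hx⟩
    rw [sat_cE hQ hR (by repeat (first | exact hv | refine hQ _ _ _ (by norm_num) ?_)) ha hb (by norm_num), upd_ne ha', upd_ne hb',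
      update_self] at hx
    exact hx
  · intro hx
    refine ⟨1, rfl, ?_⟩
    rw [sat_cE hQ hR (by repeat (first | exact hv | refine hQ _ _ _ (by norm_num) ?_)) ha hb (by norm_num), upd_ne ha', upd_ne hb',
      update_self]
    exact hx

lemma sat_cFst (hQ : Keeps Q) (hR : RepQ O Q h M) (hv : Q v) {a : ℕ} (ha : 10 ≤ a) (ha' : a ≠ 18) :
    Sat O ((Tp.cFst a).inst h) v ↔ Fst M (v a) := by
  have hu : ∀ x : K, Q (update v 18 x) := fun x => by repeat (first | exact hv | refine hQ _ _ _ (by norm_num) ?_)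
  simp only [Tp.cFst, sat_and, sat_neg, sat_ex, sat_cD hQ hR hv ha, Fst]
  simp only [sat_cD hQ hR (hu _) (by norm_num : 10 ≤ 18), sat_cL hQ hR (hu _) (by norm_num : 10 ≤ 18) ha,
    update_self, upd_ne ha']

lemma sat_cSuc (hQ : Keeps Q) (hR : RepQ O Q h M) (hv : Q v) {a b : ℕ} (ha : 10 ≤ a) (hb : 10 ≤ b)
    (ha' : a ≠ 18) (hb' : b ≠ 18) :
    Sat O ((Tp.cSuc a b).inst h) v ↔ Suc M (v a) (v b) := by
  have hu : ∀ x : K, Q (update v 18 x) := fun x => by repeat (first | exact hv | refine hQ _ _ _ (by norm_num) ?_)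
  simp only [Tp.cSuc, sat_and, sat_neg, sat_ex, sat_cD hQ hR hv ha, sat_cD hQ hR hv hb,
    sat_cL hQ hR hv ha hb, Suc]
  simp only [sat_cD hQ hR (hu _) (by norm_num : 10 ≤ 18), sat_cL hQ hR (hu _) ha (by norm_num : 10 ≤ 18),
    sat_cL hQ hR (hu _) (by norm_num : 10 ≤ 18) hb, update_self, upd_ne ha', upd_ne hb']

lemma sat_cNxt (hQ : Keeps Q) (hR : RepQ O Q h M) (hv : Q v) {x y x' y' : ℕ} (hx : 20 ≤ x) (hy : 20 ≤ y)
    (hx' : 20 ≤ x') (hy' : 20 ≤ y') :
    Sat O ((Tp.cNxt x y x' y').inst h) v ↔ Nxt M (v x) (v y) (v x') (v y') := by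
  have hu : ∀ u : K, Q (update v 19 u) := fun u => by repeat (first | exact hv | refine hQ _ _ _ (by norm_num) ?_)
  have e1 : x ≠ 19 := by omega
  have e2 : y ≠ 19 := by omega
  have e3 : x' ≠ 19 := by omega
  have e4 : y' ≠ 19 := by omega
  simp only [Tp.cNxt, sat_or, sat_and, sat_ex, sat_eqv, Nxt]
  rw [sat_cSuc hQ hR hv (by omega) (by omega) (by omega) (by omega),
    sat_cFst hQ hR hv (by omega) (by omega), sat_cL hQ hR hv (by omega) (by omega),
    sat_cSuc hQ hR hv (by omega) (by omega) (by omega) (by omega),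
    sat_cFst hQ hR hv (by omega) (by omega),
    sat_cSuc hQ hR hv (by omega) (by omega) (by omega) (by omega)]
  refine or_congr (exists_congr fun u => ?_) Iff.rfl
  rw [sat_cSuc hQ hR (hu u) (by omega) (by norm_num) (by omega) (by norm_num),
    sat_cL hQ hR (hu u) (by norm_num) (by omega), update_self, upd_ne e1, upd_ne e2, upd_ne e3,
    upd_ne e4]

lemma sat_P1 (hQ : Keeps Q) (hR : RepQ O Q h M) (hv : Q v) :
    Sat O (Tp.P1.inst h) v ↔ PairR M (v 0) (v 1) (v 2) := by
  simp only [Tp.P1, sat_arg3, sat_and, sat_ex, sat_all, sat_imp, PairR]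
  have h0 : Q (update (update (update v 10 (v 0)) 11 (v 1)) 12 (v 2)) := by repeat (first | exact hv | refine hQ _ _ _ (by norm_num) ?_)
  refine and_congr ?_ (exists_congr fun s => exists_congr fun r => and_congr
    (forall_congr' fun i => ?_) (and_congr (forall_congr' fun i => forall_congr' fun j => ?_) ?_))
  · rw [sat_cD hQ hR h0 (by norm_num)]
    simp
  · have h1 : Q (update (update (update (update (update (update v 10 (v 0)) 11 (v 1)) 12 (v 2)) 13 s)
      14 r) 15 i) := by repeat (first | exact hv | refine hQ _ _ _ (by norm_num) ?_)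
    rw [sat_cFst hQ hR h1 (by norm_num) (by norm_num),
      sat_cE hQ hR h1 (by norm_num) (by norm_num) (by norm_num),
      sat_cE hQ hR h1 (by norm_num) (by norm_num) (by norm_num)]
    simp
  · have h1 : Q (update (update (update (update (update (update (update v 10 (v 0)) 11 (v 1)) 12 (v 2))
      13 s) 14 r) 15 i) 16 j) := by repeat (first | exact hv | refine hQ _ _ _ (by norm_num) ?_)
    rw [sat_cSuc hQ hR h1 (by norm_num) (by norm_num) (by norm_num) (by norm_num)]
    refine imp_congr (by simp) (exists_congr fun x => exists_congr fun y =>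
      exists_congr fun x' => exists_congr fun y' => ?_)
    have h2 : Q (update (update (update (update (update (update (update (update (update (update
      (update v 10 (v 0)) 11 (v 1)) 12 (v 2)) 13 s) 14 r) 15 i) 16 j) 20 x) 21 y) 22 x') 23 y') := by repeat (first | exact hv | refine hQ _ _ _ (by norm_num) ?_)
    rw [sat_cE hQ hR h2 (by norm_num) (by norm_num) (by norm_num),
      sat_cE hQ hR h2 (by norm_num) (by norm_num) (by norm_num),
      sat_cE hQ hR h2 (by norm_num) (by norm_num) (by norm_num),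
      sat_cE hQ hR h2 (by norm_num) (by norm_num) (by norm_num),
      sat_cNxt hQ hR h2 (by norm_num) (by norm_num) (by norm_num) (by norm_num)]
    simp
  · have h1 : Q (update (update (update (update (update v 10 (v 0)) 11 (v 1)) 12 (v 2)) 13 s)
      14 r) := by repeat (first | exact hv | refine hQ _ _ _ (by norm_num) ?_)
    rw [sat_cE hQ hR h1 (by norm_num) (by norm_num) (by norm_num),
      sat_cE hQ hR h1 (by norm_num) (by norm_num) (by norm_num)]
    simp

lemma sat_cP (hQ : Keeps Q) (hR2 : RepQ2 O Q h M k0) (hv : Q v) {a b c : ℕ} (ha : 10 ≤ a) (hb : 10 ≤ b)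
    (hc : 10 ≤ c) : Sat O ((Tp.cP a b c).inst h) v ↔ PairR M (v a) (v b) (v c) := by
  rw [Tp.cP, sat_call3 O h v _ (by omega) (by omega) (by omega) (by omega) (by omega) (by omega),
    sat_hole]
  rw [(hR2 _ (by repeat (first | exact hv | refine hQ _ _ _ (by norm_num) ?_))).2,
    update_self, upd_ne (by norm_num), upd_ne (by norm_num), update_self, upd_ne (by norm_num),
    update_self]

lemma sat_cA (hQ : Keeps Q) (hR2 : RepQ2 O Q h M k0) (hv : Q v) {a : ℕ} (ha : 10 ≤ a) :
    Sat O ((Tp.cA a).inst h) v ↔ Num M k0 (v a) := by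
  rw [Tp.cA, sat_call1 O h v _ (by omega), sat_hole,
    (hR2 _ (by repeat (first | exact hv | refine hQ _ _ _ (by norm_num) ?_))).1, update_self]

lemma sat_cNum (hQ : Keeps Q) (hR : RepQ O Q h M) (k : ℕ) : ∀ (v : ℕ → K) (_ : Q v) {a : ℕ} (_ : 10 ≤ a)
    (_ : a ≠ 18) (_ : a ≠ 30), Sat O ((Tp.cNum k a).inst h) v ↔ Num M k (v a) := by
  induction k with
  | zero =>
    intro v hv a ha ha1 _
    exact sat_cFst hQ hR hv ha ha1
  | succ k ih =>
    intro v hv a ha ha1 ha2
    simp only [Tp.cNum, sat_ex, sat_and, sat_eqv, Pool.Agent.Y924.EL.Num, update_self, upd_ne ha2]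
    have h1 : ∀ x y z : K, Q (update (update (update v 30 x) 31 y) 32 z) := by
      intro x y z
      repeat (first | exact hv | refine hQ _ _ _ (by norm_num) ?_)
    have h2 : ∀ x y : K, Q (update (update v 30 x) 31 y) := by
      intro x y
      repeat (first | exact hv | refine hQ _ _ _ (by norm_num) ?_)
    constructor
    · rintro ⟨x, rfl, y, ⟨z, hz, hz2⟩, hy⟩
      rw [ih _ (h1 _ _ _) (by norm_num) (by norm_num) (by norm_num)] at hz2
      rw [sat_cSuc hQ hR (h2 _ _) (by norm_num) (by norm_num) (by norm_num) (by norm_num)] at hy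
      simp at hz hz2 hy
      subst hz
      exact ⟨z, hz2, hy⟩
    · rintro ⟨y, hy, hy2⟩
      refine ⟨v a, rfl, y, ⟨y, by simp, ?_⟩, ?_⟩
      · rw [ih _ (h1 _ _ _) (by norm_num) (by norm_num) (by norm_num)]
        simpa using hy
      · rw [sat_cSuc hQ hR (h2 _ _) (by norm_num) (by norm_num) (by norm_num) (by norm_num)]
        simpa using hy2

lemma sat_cMem (hQ : Keeps Q) (hR : RepQ O Q h M) (hR2 : RepQ2 O Q h M k0) (hv : Q v) {w c x y : ℕ}
    (hw : 10 ≤ w) (hc : 10 ≤ c) (hx : 10 ≤ x) (hy : 10 ≤ y)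
    (w1 : w ≠ 27) (w2 : w ≠ 28) (w3 : w ≠ 29) (c1 : c ≠ 27) (c2 : c ≠ 28) (x1 : x ≠ 27)
    (x2 : x ≠ 28) (y1 : y ≠ 27) (y2 : y ≠ 28) :
    Sat O ((Tp.cMem w c x y).inst h) v ↔ Mem M 1 (v w) (v c) (v x) (v y) := by
  simp only [Tp.cMem, sat_ex, sat_and, Mem]
  refine exists_congr fun q => exists_congr fun s => ?_
  have h1 : Q (update (update v 27 q) 28 s) := by repeat (first | exact hv | refine hQ _ _ _ (by norm_num) ?_)
  rw [sat_cP hQ hR2 h1 hx hy (by norm_num), sat_cP hQ hR2 h1 hc (by norm_num) (by norm_num),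
    sat_cE1 hQ hR h1 hw (by norm_num) w3 (by norm_num)]
  have e : (27 : ℕ) ≠ 28 := by norm_num
  simp only [update_self, upd_ne w2, upd_ne w1, upd_ne x2, upd_ne x1, upd_ne y2, upd_ne y1,
    upd_ne c2, upd_ne c1, upd_ne e]

lemma sat_cRec (hQ : Keeps Q) (hR : RepQ O Q h M) (hR2 : RepQ2 O Q h M k0) (hv : Q v) :
    Sat O (Tp.cRec.inst h) v ↔ ∃ z n, PairR M z n (v 42) ∧ ((Fst M n ∧ Mem M 1 (v 13) (v 46) z
      (v 43)) ∨ ∃ k i xk q2 x2, Suc M k n ∧ PairR M z k xk ∧ Mem M 1 (v 13) (v 40) xk i ∧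
        PairR M k i q2 ∧ PairR M z q2 x2 ∧ Mem M 1 (v 13) (v 47) x2 (v 43)) := by
  simp only [Tp.cRec, sat_ex, sat_and, sat_or]
  refine exists_congr fun z => exists_congr fun n => ?_
  have h1 : Q (update (update v 48 z) 49 n) := by repeat (first | exact hv | refine hQ _ _ _ (by norm_num) ?_)
  rw [sat_cP hQ hR2 h1 (by norm_num) (by norm_num) (by norm_num),
    sat_cFst hQ hR h1 (by norm_num) (by norm_num),
    sat_cMem hQ hR hR2 h1 (by norm_num) (by norm_num) (by norm_num) (by norm_num) (by norm_num)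
      (by norm_num) (by norm_num) (by norm_num) (by norm_num) (by norm_num) (by norm_num)
      (by norm_num) (by norm_num)]
  refine and_congr (by simp) (or_congr (by simp) (exists_congr fun k => exists_congr fun i =>
    exists_congr fun xk => exists_congr fun q2 => exists_congr fun x2 => ?_))
  have h2 : Q (update (update (update (update (update (update (update v 48 z) 49 n) 50 k) 51 i) 52 xk)
    53 q2) 54 x2) := by repeat (first | exact hv | refine hQ _ _ _ (by norm_num) ?_)
  rw [sat_cSuc hQ hR h2 (by norm_num) (by norm_num) (by norm_num) (by norm_num),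
    sat_cP hQ hR2 h2 (by norm_num) (by norm_num) (by norm_num),
    sat_cP hQ hR2 h2 (by norm_num) (by norm_num) (by norm_num),
    sat_cP hQ hR2 h2 (by norm_num) (by norm_num) (by norm_num),
    sat_cMem hQ hR hR2 h2 (by norm_num) (by norm_num) (by norm_num) (by norm_num) (by norm_num)
      (by norm_num) (by norm_num) (by norm_num) (by norm_num) (by norm_num) (by norm_num)
      (by norm_num) (by norm_num),
    sat_cMem hQ hR hR2 h2 (by norm_num) (by norm_num) (by norm_num) (by norm_num) (by norm_num)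
      (by norm_num) (by norm_num) (by norm_num) (by norm_num) (by norm_num) (by norm_num)
      (by norm_num) (by norm_num)]
  simp

lemma sat_cCases (hQ : Keeps Q) (hR : RepQ O Q h M) (hR2 : RepQ2 O Q h M k0) (hv : Q v) :
    Sat O (Tp.cCases.inst h) v ↔
    ((Num M 0 (v 44) ∧ Fst M (v 43)) ∨ (Num M 1 (v 44) ∧ Suc M (v 42) (v 43)) ∨
      (Num M 2 (v 44) ∧ ∃ u, PairR M (v 43) u (v 42)) ∨
      (Num M 3 (v 44) ∧ ∃ u, PairR M u (v 43) (v 42)) ∨
      (Num M 4 (v 44) ∧ ∃ a b, Mem M 1 (v 13) (v 46) (v 42) a ∧ Mem M 1 (v 13) (v 47) (v 42) b ∧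
        PairR M a b (v 43)) ∨
      (Num M 5 (v 44) ∧ ∃ a, Mem M 1 (v 13) (v 47) (v 42) a ∧ Mem M 1 (v 13) (v 46) a (v 43)) ∨
      (Num M 6 (v 44) ∧ ∃ z n, PairR M z n (v 42) ∧ ((Fst M n ∧ Mem M 1 (v 13) (v 46) z
      (v 43)) ∨ ∃ k i xk q2 x2, Suc M k n ∧ PairR M z k xk ∧ Mem M 1 (v 13) (v 40) xk i ∧
        PairR M k i q2 ∧ PairR M z q2 x2 ∧ Mem M 1 (v 13) (v 47) x2 (v 43)))) := by
  simp only [Tp.cCases, sat_or, sat_and, sat_ex]
  rw [sat_cNum hQ hR 0 v hv (by norm_num) (by norm_num) (by norm_num),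
    sat_cNum hQ hR 1 v hv (by norm_num) (by norm_num) (by norm_num),
    sat_cNum hQ hR 2 v hv (by norm_num) (by norm_num) (by norm_num),
    sat_cNum hQ hR 3 v hv (by norm_num) (by norm_num) (by norm_num),
    sat_cNum hQ hR 4 v hv (by norm_num) (by norm_num) (by norm_num),
    sat_cNum hQ hR 5 v hv (by norm_num) (by norm_num) (by norm_num),
    sat_cNum hQ hR 6 v hv (by norm_num) (by norm_num) (by norm_num),
    sat_cFst hQ hR hv (by norm_num) (by norm_num),
    sat_cSuc hQ hR hv (by norm_num) (by norm_num) (by norm_num) (by norm_num),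
    sat_cRec hQ hR hR2 hv]
  have h1 : ∀ x : K, Q (update v 48 x) := fun x => by repeat (first | exact hv | refine hQ _ _ _ (by norm_num) ?_)
  have h2 : ∀ x y : K, Q (update (update v 48 x) 49 y) := fun x y => by repeat (first | exact hv | refine hQ _ _ _ (by norm_num) ?_)
  refine or_congr Iff.rfl (or_congr Iff.rfl (or_congr (and_congr Iff.rfl
    (exists_congr fun u => ?_)) (or_congr (and_congr Iff.rfl (exists_congr fun u => ?_))
    (or_congr (and_congr Iff.rfl (exists_congr fun a => exists_congr fun b => ?_))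
    (or_congr (and_congr Iff.rfl (exists_congr fun a => ?_)) Iff.rfl)))))
  · rw [sat_cP hQ hR2 (h1 _) (by norm_num) (by norm_num) (by norm_num)]
    simp
  · rw [sat_cP hQ hR2 (h1 _) (by norm_num) (by norm_num) (by norm_num)]
    simp
  · rw [sat_cMem hQ hR hR2 (h2 _ _) (by norm_num) (by norm_num) (by norm_num) (by norm_num)
      (by norm_num) (by norm_num) (by norm_num) (by norm_num) (by norm_num) (by norm_num)
      (by norm_num) (by norm_num) (by norm_num),
      sat_cMem hQ hR hR2 (h2 _ _) (by norm_num) (by norm_num) (by norm_num) (by norm_num)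
      (by norm_num) (by norm_num) (by norm_num) (by norm_num) (by norm_num) (by norm_num)
      (by norm_num) (by norm_num) (by norm_num),
      sat_cP hQ hR2 (h2 _ _) (by norm_num) (by norm_num) (by norm_num)]
    simp
  · rw [sat_cMem hQ hR hR2 (h1 _) (by norm_num) (by norm_num) (by norm_num) (by norm_num)
      (by norm_num) (by norm_num) (by norm_num) (by norm_num) (by norm_num) (by norm_num)
      (by norm_num) (by norm_num) (by norm_num),
      sat_cMem hQ hR hR2 (h1 _) (by norm_num) (by norm_num) (by norm_num) (by norm_num)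
      (by norm_num) (by norm_num) (by norm_num) (by norm_num) (by norm_num) (by norm_num)
      (by norm_num) (by norm_num) (by norm_num)]
    simp

lemma sat_cJust (hQ : Keeps Q) (hR : RepQ O Q h M) (hR2 : RepQ2 O Q h M k0) (hv : Q v) :
    Sat O (Tp.cJust.inst h) v ↔ JustR M 1 (v 13) (v 14) := by
  simp only [Tp.cJust, sat_ex, sat_and, JustR]
  refine exists_congr fun c => exists_congr fun q => exists_congr fun x => exists_congr fun y =>
    exists_congr fun g => exists_congr fun c' => exists_congr fun c1 => exists_congr fun c2 => ?_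
  have h1 : Q (update (update (update (update (update (update (update (update v 40 c) 41 q) 42 x) 43 y)
    44 g) 45 c') 46 c1) 47 c2) := by repeat (first | exact hv | refine hQ _ _ _ (by norm_num) ?_)
  rw [sat_cP hQ hR2 h1 (by norm_num) (by norm_num) (by norm_num),
    sat_cP hQ hR2 h1 (by norm_num) (by norm_num) (by norm_num),
    sat_cP hQ hR2 h1 (by norm_num) (by norm_num) (by norm_num),
    sat_cP hQ hR2 h1 (by norm_num) (by norm_num) (by norm_num), sat_cCases hQ hR hR2 h1]
  simp

lemma sat_cUni (hQ : Keeps Q) (hR : RepQ O Q h M) (hR2 : RepQ2 O Q h M k0) (hv : Q v) :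
    Sat O (Tp.cUni.inst h) v ↔ Uni M 1 (v 10) (v 11) (v 12) := by
  simp only [Tp.cUni, sat_ex, sat_and, sat_all, sat_imp, Uni]
  refine exists_congr fun w => ?_
  have h1 : Q (update v 13 w) := by repeat (first | exact hv | refine hQ _ _ _ (by norm_num) ?_)
  have h2 : ∀ s, Q (update (update v 13 w) 14 s) := fun s => by repeat (first | exact hv | refine hQ _ _ _ (by norm_num) ?_)
  rw [sat_cMem hQ hR hR2 h1 (by norm_num) (by norm_num) (by norm_num) (by norm_num)
      (by norm_num) (by norm_num) (by norm_num) (by norm_num) (by norm_num) (by norm_num)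
      (by norm_num) (by norm_num) (by norm_num)]
  refine and_congr (forall_congr' fun s => ?_) (by simp)
  rw [sat_cD hQ hR (h2 s) (by norm_num), sat_cE1 hQ hR (h2 s) (by norm_num) (by norm_num)
    (by norm_num) (by norm_num), sat_cJust hQ hR hR2 (h2 s)]
  simp

end

theorem t_SEMA : Pool.Agent.Y924.UF.S_SEMA := by
  intro K _ O Q h M hQ hR n
  induction n with
  | zero =>
    refine ⟨fun v hv => hR v hv, fun v hv => ⟨?_, ?_⟩⟩
    · show Sat O (Tp.A0.inst h) v ↔ _
      have h0 : Q (update v 10 (v 0)) := hQ _ _ _ (by norm_num) hv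
      rw [Tp.A0, sat_arg1, sat_cFst hQ hR h0 (by norm_num) (by norm_num)]
      simp [Pool.Agent.Y924.EL.Num]
    · exact sat_P1 hQ hR hv
  | succ n ih =>
    rw [Function.iterate_succ_apply']
    obtain ⟨hR1, hR2⟩ := ih
    refine ⟨fun v hv => hR1 v hv, fun v hv => ⟨?_, (hR2 v hv).2⟩⟩
    show Sat O (Tp.A1.inst _) v ↔ _
    simp only [Tp.A1, sat_arg1, sat_ex, sat_and, Pool.Agent.Y924.EL.Num]
    refine exists_congr fun x => ?_
    have h0 : Q (update (update v 10 (v 0)) 11 x) := by repeat (first | exact hv | refine hQ _ _ _ (by norm_num) ?_)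
    have h00 : Q (update (update (update v 10 (v 0)) 11 x) 0 (update (update v 10 (v 0)) 11 x 11)) :=
      hQ _ _ _ (by norm_num) h0
    rw [Tp.cA, sat_call1 O _ _ _ (by norm_num), sat_hole, (hR2 _ h00).1,
      sat_cSuc hQ hR1 h0 (by norm_num) (by norm_num) (by norm_num) (by norm_num)]
    simp

section

variable {K : Type} [CommRing K] {O : Set K} {Q : (ℕ → K) → Prop} {h : Fin 5 → Fm} {M : Lev K}

lemma sat_FinT (hQ : Keeps Q) (hR : RepQ O Q h M) {v : ℕ → K} (hv : Q v) :
    Sat O (FinT.inst h) v ↔ ∃ b c : K, b ≠ 0 ∧ c ≠ 0 ∧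
      (∀ x, M.D x → ∃ z, z ∈ O ∧ c * z = x) ∧
      ∀ x y, M.D x → M.D y → (∃ z y', z ∈ O ∧ b * z = y' ∧ y' + y = x) → x = y := by
  simp only [FinT, sat_ex, sat_and, sat_neg, sat_isZ, sat_all, sat_imp, sat_atom, sat_eqv, Sat]
  refine exists_congr fun b => exists_congr fun c => and_congr (by simp) (and_congr (by simp)
    (and_congr (forall_congr' fun x => ?_) (forall_congr' fun x => forall_congr' fun y => ?_)))
  · have h1 : Q (update (update (update v 13 b) 14 c) 10 x) := by repeat (first | exact hv | refine hQ _ _ _ (by norm_num) ?_)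
    rw [sat_cD hQ hR h1 (by norm_num)]
    simp
  · have h1 : Q (update (update (update (update v 13 b) 14 c) 10 x) 11 y) := by repeat (first | exact hv | refine hQ _ _ _ (by norm_num) ?_)
    rw [sat_cD hQ hR h1 (by norm_num), sat_cD hQ hR h1 (by norm_num)]
    simp

lemma sat_OrdT (hQ : Keeps Q) (hR : RepQ O Q h M) {v : ℕ → K} (hv : Q v) :
    Sat O (OrdT.inst h) v ↔ (∀ x, ¬ M.L x x) ∧ (∀ x y z, M.L x y → M.L y z → M.L x z) ∧
      ∀ x y, M.D x → M.D y → x = y ∨ M.L x y ∨ M.L y x := by
  simp only [OrdT, sat_and, sat_neg, sat_all, sat_imp, sat_or, sat_eqv]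
  refine and_congr (forall_congr' fun x => ?_) (and_congr (forall_congr' fun x =>
    forall_congr' fun y => forall_congr' fun z => ?_) (forall_congr' fun x =>
    forall_congr' fun y => ?_))
  · have h1 : Q (update v 10 x) := hQ _ _ _ (by norm_num) hv
    rw [sat_cL hQ hR h1 (by norm_num) (by norm_num)]
    simp
  · have h1 : Q (update (update (update v 10 x) 11 y) 12 z) := by repeat (first | exact hv | refine hQ _ _ _ (by norm_num) ?_)
    rw [sat_cL hQ hR h1 (by norm_num) (by norm_num), sat_cL hQ hR h1 (by norm_num) (by norm_num),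
      sat_cL hQ hR h1 (by norm_num) (by norm_num)]
    simp
  · have h1 : Q (update (update v 10 x) 11 y) := by repeat (first | exact hv | refine hQ _ _ _ (by norm_num) ?_)
    rw [sat_cD hQ hR h1 (by norm_num), sat_cD hQ hR h1 (by norm_num),
      sat_cL hQ hR h1 (by norm_num) (by norm_num), sat_cL hQ hR h1 (by norm_num) (by norm_num)]
    simp

lemma sat_HBody (hQ : Keeps Q) (hR : RepQ O Q h M) {n : ℕ} (hR2 : RepQ2 O Q h M n) (cc : ℕ)
    {v : ℕ → K} (hv : Q v) :
    Sat O ((HBody cc).inst h) v ↔ ∃ a, Num M n a ∧ ∃ m x, PairR M m a x ∧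
      ∃ g, Num M cc g ∧ ∃ y, Num M 1 y ∧ Uni M 1 g x y := by
  simp only [HBody, sat_ex, sat_and]
  refine exists_congr fun a => and_congr ?_ (exists_congr fun m => exists_congr fun x =>
    and_congr ?_ (exists_congr fun g => and_congr ?_ (exists_congr fun y => and_congr ?_ ?_)))
  · have h1 : Q (update v 16 a) := hQ _ _ _ (by norm_num) hv
    rw [sat_cA hQ hR2 h1 (by norm_num)]
    simp
  · have h1 : Q (update (update (update v 16 a) 15 m) 11 x) := by repeat (first | exact hv | refine hQ _ _ _ (by norm_num) ?_)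
    rw [sat_cP hQ hR2 h1 (by norm_num) (by norm_num) (by norm_num)]
    simp
  · have h1 : Q (update (update (update (update v 16 a) 15 m) 11 x) 10 g) := by repeat (first | exact hv | refine hQ _ _ _ (by norm_num) ?_)
    rw [sat_cNum hQ hR cc _ h1 (by norm_num) (by norm_num) (by norm_num)]
    simp
  · have h1 : Q (update (update (update (update (update v 16 a) 15 m) 11 x) 10 g) 12 y) := by repeat (first | exact hv | refine hQ _ _ _ (by norm_num) ?_)
    rw [sat_cNum hQ hR 1 _ h1 (by norm_num) (by norm_num) (by norm_num)]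
    simp
  · have h1 : Q (update (update (update (update (update v 16 a) 15 m) 11 x) 10 g) 12 y) := by repeat (first | exact hv | refine hQ _ _ _ (by norm_num) ?_)
    rw [sat_cUni hQ hR hR2 h1]
    simp

end

theorem t_SEMB : Pool.Agent.Y924.UF.S_SEMB := by
  intro K _ O Q h M n cc hQ hR hR2 v hv
  exact ⟨sat_FinT hQ hR hv, sat_OrdT hQ hR hv, sat_HBody hQ hR hR2 cc hv⟩

end Pool.Agent.Y153.UF
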